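import Mathlib

namespace Pool.Agent.Results.MP_b976b5_co.Cells

open Finset

/-- The `m^2` elements; `(i, a)` is the `a`-th element of block `B_i`. -/
abbrev X (m : ℕ) := Fin m × Fin m

/-- Standard division sudoku: a latin square all of whose conjugates are standard sudokus. -/
structure DS {m : ℕ} (L : X m → X m → X m) : Prop where
  row : ∀ x, Function.Bijective (fun y => L x y)
  col : ∀ y, Function.Bijective (fun x => L x y)
  sym : ∀ i j z, ∃ x y, x.1 = i ∧ y.1 = j ∧ L x y = z
  lft : ∀ i l y, ∃ x, x.1 = i ∧ (L x y).1 = l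
  rgt : ∀ j l x, ∃ y, y.1 = j ∧ (L x y).1 = l

/-- The entries of `L` in the cells of `S` determine `L` among standard division sudokus. -/
def Determines {m : ℕ} (L : X m → X m → X m) (S : Finset (X m × X m)) : Prop :=
  ∀ L', DS L' → (∀ c ∈ S, L' c.1 c.2 = L c.1 c.2) → L' = L

lemma swap_blk {m : ℕ} {x x' : X m} (h : x.1 = x'.1) (r : X m) : (Equiv.swap x x' r).1 = r.1 := by
  rw [Equiv.swap_apply_def]; split_ifs with a b
  · rw [a, h]
  · rw [b, h]
  · rfl

lemma swap_DS {m : ℕ} {L : X m → X m → X m} (hL : DS L) {x x' : X m} (h : x.1 = x'.1) :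
    DS (fun r => L (Equiv.swap x x' r)) := by
  refine ⟨fun r => hL.row _, fun y => (hL.col y).comp (Equiv.swap x x').bijective, ?_, ?_,
    fun j l r => hL.rgt j l _⟩
  · intro i j z
    obtain ⟨r, y, a, b, c⟩ := hL.sym i j z
    exact ⟨Equiv.swap x x' r, y, by rw [swap_blk h, a], b, by simpa using c⟩
  · intro i l y
    obtain ⟨r, a, b⟩ := hL.lft i l y
    exact ⟨Equiv.swap x x' r, by rw [swap_blk h, a], by simpa using b⟩

/-- A determining set of a standard division sudoku of rank `m` meets at least `m^2 - m` rows, so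
it has at least `m^2 - m` cells. -/
theorem joined (m : ℕ) (L : X m → X m → X m) (hL : DS L) (S : Finset (X m × X m))
    (hS : Determines L S) : m ^ 2 - m ≤ (S.image Prod.fst).card ∧ m ^ 2 - m ≤ S.card := by
  have key : ((S.image Prod.fst)ᶜ).card ≤ (univ : Finset (Fin m)).card := by
    apply card_le_card_of_injOn Prod.fst (fun _ _ => by simp)
    intro x hx x' hx' h
    have hx : x ∉ S.image Prod.fst := mem_compl.1 (mem_coe.1 hx)
    have hx' : x' ∉ S.image Prod.fst := mem_compl.1 (mem_coe.1 hx')
    have e := hS _ (swap_DS hL h) (fun c hc => by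
      have a : c.1 ≠ x := fun a => hx (a ▸ mem_image_of_mem _ hc)
      have b : c.1 ≠ x' := fun b => hx' (b ▸ mem_image_of_mem _ hc)
      simp only [Equiv.swap_apply_of_ne_of_ne a b])
    have e2 := congrFun (congrFun e x') x
    simp only [Equiv.swap_apply_right] at e2
    exact (hL.col x).1 e2
  rw [card_compl, card_univ, Fintype.card_prod, Fintype.card_fin] at key
  have h1 : m ^ 2 - m ≤ (S.image Prod.fst).card := by rw [sq]; omega
  exact ⟨h1, h1.trans card_image_le⟩

theorem result (m : ℕ) (L : X m → X m → X m) (hL : DS L) (S : Finset (X m × X m))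
    (hS : Determines L S) : m ^ 2 - m ≤ S.card := (joined m L hL S hS).2

end Pool.Agent.Results.MP_b976b5_co.Cells
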